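import Pool.Agent.Lib_helper99.FGA.Wanted
import Pool.Agent.Lib_helper92.PVF.LQC

/-! # Block A17 of FGA (MP_5dd4bb_nt), by helper72: the tail of `Q/φ(Q)` in mean -/

set_option autoImplicit false

namespace Pool.Agent.FGA

open Finset Pool.Agent.Var35 Pool.Agent.Var73 Pool.Agent.PV Pool.Agent.FGP
open scoped ArithmeticFunction ArithmeticFunction.Moebius

/-- `μ²(r)/φ(r)` -/
noncomputable def a17F (r : ℕ) : ℝ := mr r ^ 2 * (Nat.totient r : ℝ)

theorem a17_nonneg (r : ℕ) : 0 ≤ a17F r := by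
  unfold a17F
  positivity

theorem a17_sq {r : ℕ} (h : Squarefree r) : a17F r = 1 / (Nat.totient r : ℝ) := by
  unfold a17F mr
  have h1 : ((μ r : ℤ) : ℝ) ^ 2 = 1 := by
    have := ArithmeticFunction.moebius_sq_eq_one_of_squarefree h
    exact_mod_cast this
  have h2 : (Nat.totient r : ℝ) ≠ 0 := by
    have : 0 < Nat.totient r := Nat.totient_pos.2 (Nat.pos_of_ne_zero h.ne_zero)
    positivity
  rw [div_pow, h1]
  field_simp

theorem a17_nsq {r : ℕ} (h : ¬ Squarefree r) : a17F r = 0 := by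
  unfold a17F mr
  rw [ArithmeticFunction.moebius_eq_zero_of_not_squarefree h]
  simp

theorem a17_le (r : ℕ) : a17F r ≤ 1 / (Nat.totient r : ℝ) := by
  by_cases h : Squarefree r
  · rw [a17_sq h]
  · rw [a17_nsq h]
    positivity

theorem a17_sum (n : ℕ) (hn : 1 ≤ n) :
    ∑ r ∈ n.divisors, a17F r = (n : ℝ) / Nat.totient n := by
  rw [← lqc_sum_div n hn, Finset.sum_filter]
  refine Finset.sum_congr rfl fun r _ => ?_
  by_cases h : Squarefree r
  · rw [if_pos h, a17_sq h]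
  · rw [if_neg h, a17_nsq h]

/-- `∑_{m ∈ (a, b]} 1/m² ≤ 2/(a+1)` -/
theorem a17_tele (a b : ℕ) : ∑ m ∈ Ioc a b, 1 / (m : ℝ) ^ 2 ≤ 2 / ((a : ℝ) + 1) := by
  have h := sum_Ioo_inv_sq_le (α := ℝ) a (b + 1)
  have e : Ioo a (b + 1) = Ioc a b := by
    ext m
    rw [mem_Ioo, mem_Ioc]
    omega
  rw [e] at h
  refine le_trans (le_of_eq (Finset.sum_congr rfl fun m _ => ?_)) h
  rw [one_div]

/-- the sum over the multiples of `d` -/
theorem a17_mult (d R B : ℕ) (hd : 1 ≤ d) (hR : 1 ≤ R) :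
    ∑ r ∈ (Ioc R B).filter (fun r => d ∣ r), 1 / (r : ℝ) ^ 2 ≤ 2 / ((d : ℝ) * R) := by
  have hd0 : (0 : ℝ) < d := by exact_mod_cast hd
  have hR0 : (0 : ℝ) < R := by exact_mod_cast hR
  have h1 : ∑ r ∈ (Ioc R B).filter (fun r => d ∣ r), 1 / (r : ℝ) ^ 2 ≤
      ∑ m ∈ Ioc (R / d) (B / d), 1 / ((d * m : ℕ) : ℝ) ^ 2 := by
    have hsub : (Ioc R B).filter (fun r => d ∣ r) ⊆ (Ioc (R / d) (B / d)).image (fun m => d * m) := by
      intro r hr
      rw [mem_filter, mem_Ioc] at hr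
      obtain ⟨⟨h1, h2⟩, m, rfl⟩ := hr
      rw [mem_image]
      refine ⟨m, ?_, rfl⟩
      rw [mem_Ioc]
      refine ⟨?_, ?_⟩
      · exact Nat.div_lt_of_lt_mul h1
      · rw [Nat.le_div_iff_mul_le hd, mul_comm]
        exact h2
    refine (Finset.sum_le_sum_of_subset_of_nonneg hsub fun r _ _ => by positivity).trans ?_
    refine Finset.sum_image_le_of_nonneg ?_
    intro m _
    positivity
  refine h1.trans ?_
  have h2 : ∑ m ∈ Ioc (R / d) (B / d), 1 / ((d * m : ℕ) : ℝ) ^ 2 =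
      (1 / (d : ℝ) ^ 2) * ∑ m ∈ Ioc (R / d) (B / d), 1 / (m : ℝ) ^ 2 := by
    rw [Finset.mul_sum]
    refine Finset.sum_congr rfl fun m _ => ?_
    push_cast
    rw [mul_pow]
    ring
  rw [h2]
  have h3 := a17_tele (R / d) (B / d)
  have h4 : (R : ℝ) < d * (((R / d : ℕ) : ℝ) + 1) := by
    have h5 : R < d * (R / d + 1) := by
      have := Nat.lt_mul_div_succ R hd
      exact this
    exact_mod_cast h5
  calc (1 / (d : ℝ) ^ 2) * ∑ m ∈ Ioc (R / d) (B / d), 1 / (m : ℝ) ^ 2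
      ≤ (1 / (d : ℝ) ^ 2) * (2 / (((R / d : ℕ) : ℝ) + 1)) := by gcongr
    _ = 2 / ((d : ℝ) * (d * (((R / d : ℕ) : ℝ) + 1))) := by
        field_simp
    _ ≤ 2 / ((d : ℝ) * R) := by gcongr

/-- `1/(d φ(d)) ≤ 5 d^(-3/2)` -/
theorem a17_conv_le (d : ℕ) (hd : 1 ≤ d) :
    1 / ((d : ℝ) * Nat.totient d) ≤ 5 * (1 / (d : ℝ) ^ (3 / 2 : ℝ)) := by
  have hd0 : (0 : ℝ) < d := by exact_mod_cast hd
  have hd1 : (1 : ℝ) ≤ d := by exact_mod_cast hd
  have hφ : (0 : ℝ) < Nat.totient d := by exact_mod_cast Nat.totient_pos.2 hd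
  have h1 := totient_ge d hd
  have h2 : Real.log d ≤ 2 * Real.sqrt d := by
    have h3 : Real.log d = 2 * Real.log (Real.sqrt d) := by
      rw [Real.log_sqrt hd0.le]
      ring
    have h4 := Real.log_le_sub_one_of_pos (Real.sqrt_pos.2 hd0)
    linarith
  have h3 : 1 ≤ Real.sqrt d := Real.one_le_sqrt.2 hd1
  have h4 : (d : ℝ) ≤ 5 * Real.sqrt d * Nat.totient d := by
    refine h1.trans ?_
    refine mul_le_mul_of_nonneg_right ?_ hφ.le
    linarith
  have h5 : (d : ℝ) ^ (3 / 2 : ℝ) = d * Real.sqrt d := by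
    rw [Real.sqrt_eq_rpow, show (3 / 2 : ℝ) = 1 + 1 / 2 by norm_num, Real.rpow_add hd0,
      Real.rpow_one]
  have hs : 0 < Real.sqrt d := Real.sqrt_pos.2 hd0
  have hss : Real.sqrt d * Real.sqrt d = d := Real.mul_self_sqrt hd0.le
  rw [h5, mul_one_div, div_le_div_iff₀ (by positivity) (by positivity), one_mul]
  calc (d : ℝ) * Real.sqrt d = d * Real.sqrt d := rfl
    _ = Real.sqrt d * d := mul_comm _ _
    _ ≤ Real.sqrt d * (5 * Real.sqrt d * Nat.totient d) := by gcongr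
    _ = 5 * (Real.sqrt d * Real.sqrt d) * Nat.totient d := by ring
    _ = 5 * ((d : ℝ) * Nat.totient d) := by rw [hss]; ring

theorem a17_conv : ∃ C : ℝ, 0 < C ∧ ∀ B : ℕ, ∑ d ∈ Icc 1 B, 1 / ((d : ℝ) * Nat.totient d) ≤ C := by
  have hs : Summable fun d : ℕ => 5 * (1 / (d : ℝ) ^ (3 / 2 : ℝ)) :=
    (Real.summable_one_div_nat_rpow.2 (by norm_num)).mul_left 5
  refine ⟨∑' d : ℕ, 5 * (1 / (d : ℝ) ^ (3 / 2 : ℝ)) + 1, ?_, fun B => ?_⟩
  · have : 0 ≤ ∑' d : ℕ, 5 * (1 / (d : ℝ) ^ (3 / 2 : ℝ)) := tsum_nonneg fun d => by positivity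
    linarith
  · calc ∑ d ∈ Icc 1 B, 1 / ((d : ℝ) * Nat.totient d)
        ≤ ∑ d ∈ Icc 1 B, 5 * (1 / (d : ℝ) ^ (3 / 2 : ℝ)) :=
          Finset.sum_le_sum fun d hd => a17_conv_le d (mem_Icc.1 hd).1
      _ ≤ ∑' d : ℕ, 5 * (1 / (d : ℝ) ^ (3 / 2 : ℝ)) :=
          hs.sum_le_tsum _ fun d _ => by positivity
      _ ≤ _ := by linarith

/-- the tail of `∑ 1/(r φ(r))` -/
theorem a17_tail : ∃ C : ℝ, 0 < C ∧ ∀ R B : ℕ, 1 ≤ R →
    ∑ r ∈ Ioc R B, 1 / ((r : ℝ) * Nat.totient r) ≤ C / R := by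
  obtain ⟨C, hC, h⟩ := a17_conv
  refine ⟨2 * C, by positivity, fun R B hR => ?_⟩
  have hR0 : (0 : ℝ) < R := by exact_mod_cast hR
  have h1 : ∑ r ∈ Ioc R B, 1 / ((r : ℝ) * Nat.totient r) =
      ∑ r ∈ Ioc R B, ∑ d ∈ Icc 1 B, if d ∣ r then a17F d * (1 / (r : ℝ) ^ 2) else 0 := by
    refine Finset.sum_congr rfl fun r hr => ?_
    rw [mem_Ioc] at hr
    have hr1 : 1 ≤ r := by omega
    have hr0 : (0 : ℝ) < r := by exact_mod_cast hr1
    have hφ : (0 : ℝ) < Nat.totient r := by exact_mod_cast Nat.totient_pos.2 hr1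
    rw [← Finset.sum_filter]
    have e : (Icc 1 B).filter (fun d => d ∣ r) = r.divisors := by
      ext d
      rw [mem_filter, mem_Icc, Nat.mem_divisors]
      constructor
      · rintro ⟨_, h2⟩
        exact ⟨h2, by omega⟩
      · rintro ⟨h2, h3⟩
        have := Nat.le_of_dvd (by omega) h2
        have := Nat.pos_of_dvd_of_pos h2 (by omega)
        exact ⟨⟨by omega, by omega⟩, h2⟩
    rw [e, ← Finset.sum_mul, a17_sum r hr1]
    field_simp
  rw [h1, Finset.sum_comm]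
  have h2 : ∀ d ∈ Icc 1 B, (∑ r ∈ Ioc R B, if d ∣ r then a17F d * (1 / (r : ℝ) ^ 2) else 0) ≤
      (2 / R) * (1 / ((d : ℝ) * Nat.totient d)) := by
    intro d hd
    rw [mem_Icc] at hd
    have hd0 : (0 : ℝ) < d := by exact_mod_cast hd.1
    have hφ : (0 : ℝ) < Nat.totient d := by exact_mod_cast Nat.totient_pos.2 hd.1
    rw [← Finset.sum_filter, ← Finset.mul_sum]
    calc a17F d * ∑ r ∈ (Ioc R B).filter (fun r => d ∣ r), 1 / (r : ℝ) ^ 2
        ≤ (1 / (Nat.totient d : ℝ)) * (2 / ((d : ℝ) * R)) :=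
          mul_le_mul (a17_le d) (a17_mult d R B hd.1 hR)
            (Finset.sum_nonneg fun r _ => by positivity) (by positivity)
      _ = (2 / R) * (1 / ((d : ℝ) * Nat.totient d)) := by field_simp
  refine (Finset.sum_le_sum h2).trans ?_
  rw [← Finset.mul_sum]
  calc (2 / (R : ℝ)) * ∑ d ∈ Icc 1 B, 1 / ((d : ℝ) * Nat.totient d) ≤ (2 / (R : ℝ)) * C := by
        have := h B
        gcongr
    _ = 2 * C / R := by ring

theorem A17_pr : A17 := by
  obtain ⟨C, hC, h⟩ := a17_tail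
  refine ⟨4 * C, by positivity, fun Y R hY hR => ?_⟩
  have hR0 : (0 : ℝ) < R := by exact_mod_cast hR
  have hY0 : (0 : ℝ) < Y := by exact_mod_cast hY
  have h1 : ∀ Q ∈ MQ Y, |TL Q R - (Q / Nat.totient Q : ℝ)| =
      ∑ r ∈ Ioc R (4 * Y), if r ∣ Q then a17F r else 0 := by
    intro Q hQ
    rw [MQ, mem_Ioc] at hQ
    have hQ1 : 1 ≤ Q := by omega
    have e1 : TL Q R = ∑ r ∈ Q.divisors.filter (fun r => r ≤ R), a17F r := rfl
    have e2 := a17_sum Q hQ1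
    rw [← Finset.sum_filter_add_sum_filter_not Q.divisors (fun r => r ≤ R)] at e2
    have e3 : Q.divisors.filter (fun r => ¬ r ≤ R) = (Ioc R (4 * Y)).filter (fun r => r ∣ Q) := by
      ext r
      rw [mem_filter, mem_filter, mem_Ioc, Nat.mem_divisors]
      constructor
      · rintro ⟨⟨h2, h3⟩, h4⟩
        have := Nat.le_of_dvd (by omega) h2
        exact ⟨⟨by omega, by omega⟩, h2⟩
      · rintro ⟨⟨h2, h3⟩, h4⟩
        exact ⟨⟨h4, by omega⟩, by omega⟩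
    rw [e1, ← Finset.sum_filter, ← e3, ← e2, abs_sub_comm, add_sub_cancel_left, abs_of_nonneg]
    exact Finset.sum_nonneg fun r _ => a17_nonneg r
  rw [Finset.sum_congr rfl h1, Finset.sum_comm]
  have h2 : ∀ r ∈ Ioc R (4 * Y), (∑ Q ∈ MQ Y, if r ∣ Q then a17F r else 0) ≤
      4 * Y * (1 / ((r : ℝ) * Nat.totient r)) := by
    intro r hr
    rw [mem_Ioc] at hr
    have hr1 : 1 ≤ r := by omega
    have hr0 : (0 : ℝ) < r := by exact_mod_cast hr1
    have hφ : (0 : ℝ) < Nat.totient r := by exact_mod_cast Nat.totient_pos.2 hr1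
    rw [← Finset.sum_filter, Finset.sum_const, nsmul_eq_mul]
    have h3 : (((MQ Y).filter (fun Q => r ∣ Q)).card : ℝ) ≤ 4 * Y / r := by
      have h4 : ((MQ Y).filter (fun Q => r ∣ Q)).card ≤ ((Ioc 0 (4 * Y)).filter (fun Q => r ∣ Q)).card := by
        refine Finset.card_le_card ?_
        intro Q hQ
        rw [mem_filter, MQ, mem_Ioc] at hQ
        rw [mem_filter, mem_Ioc]
        exact ⟨⟨by omega, hQ.1.2⟩, hQ.2⟩
      rw [Nat.Ioc_filter_dvd_card_eq_div] at h4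
      calc (((MQ Y).filter (fun Q => r ∣ Q)).card : ℝ) ≤ ((4 * Y / r : ℕ) : ℝ) := by exact_mod_cast h4
        _ ≤ ((4 * Y : ℕ) : ℝ) / r := Nat.cast_div_le
        _ = 4 * Y / r := by push_cast; ring
    calc (((MQ Y).filter (fun Q => r ∣ Q)).card : ℝ) * a17F r
        ≤ (4 * Y / r) * (1 / (Nat.totient r : ℝ)) :=
          mul_le_mul h3 (a17_le r) (a17_nonneg r) (by positivity)
      _ = 4 * Y * (1 / ((r : ℝ) * Nat.totient r)) := by field_simp
  refine (Finset.sum_le_sum h2).trans ?_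
  rw [← Finset.mul_sum]
  calc (4 * (Y : ℝ)) * ∑ r ∈ Ioc R (4 * Y), 1 / ((r : ℝ) * Nat.totient r)
      ≤ (4 * (Y : ℝ)) * (C / R) := by
        have := h R (4 * Y) hR
        gcongr
    _ = 4 * C * Y / R := by ring

end Pool.Agent.FGA
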