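import Pool.Agent.Lib_helper99.FGA.Wanted

/-!
# FGA block A07: the variance of `gh` for all moduli (helper72, after helper53's FGP P13)
-/

set_option autoImplicit false

namespace Pool.Agent.FGA

open Finset Pool.Agent.Var35 Pool.Agent.Var73 Pool.Agent.PV Pool.Agent.FGP
open scoped ArithmeticFunction ArithmeticFunction.Moebius

theorem A07_pr (h13a : FGP.W13a) (h13b : FGP.W13b) : A07 := by
  obtain ⟨C1, hC1, K1, h1⟩ := h13b
  refine ⟨8 * C1, by positivity, max K1 10, ?_⟩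
  intro K hK N hR M hM Y hY Q hQ
  have hK1 : K1 ≤ K := le_trans (le_max_left _ _) hK
  have hK10 : 10 ≤ K := hR.hK
  have hKr : (10 : ℝ) ≤ K := by exact_mod_cast hK10
  have hK0 : (0 : ℝ) < K := by linarith
  have hK1r : (1 : ℝ) ≤ K := by linarith
  have hNK : (K : ℝ) ^ 400 ≤ N := by exact_mod_cast hR.hN
  have hN1 : (1 : ℝ) ≤ N := le_trans (one_le_pow₀ hK1r) hNK
  have hN0 : (0 : ℝ) < N := by linarith
  -- `log N ≤ K`
  have hlogK : Real.log N ≤ K := by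
    by_cases h : 1 ≤ Real.log N
    · exact le_trans (le_self_pow₀ h (by norm_num)) hR.hL
    · push Not at h
      linarith
  have hlog0 : 0 ≤ Real.log N := Real.log_nonneg hN1
  -- the window
  have hMw : (Mw N K : ℝ) ≤ N / (K : ℝ) ^ 7 := by
    unfold Mw Hw
    refine (Nat.floor_le (by positivity)).trans ?_
    calc (N : ℝ) / (K : ℝ) ^ 8 * Real.log N ≤ (N : ℝ) / (K : ℝ) ^ 8 * K := by gcongr
      _ = N / (K : ℝ) ^ 7 := by field_simp
  have hMw4 : 4 * Mw N K < N := by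
    have h2 : (N : ℝ) / (K : ℝ) ^ 7 ≤ N / 10 := by
      apply div_le_div_of_nonneg_left hN0.le (by norm_num)
      exact le_trans hKr (le_self_pow₀ hK1r (by norm_num))
    have h3 : (4 : ℝ) * Mw N K < N := by linarith
    exact_mod_cast h3
  -- `N ≤ K Y`
  have hYpos : (0 : ℝ) < Y := by exact_mod_cast hY.hY1
  have hNY : (N : ℝ) ≤ K * Y := by
    by_contra hcon
    push Not at hcon
    have h2 : ((K : ℝ) * Y) ^ 16 < (N : ℝ) ^ 16 := by
      apply pow_lt_pow_left₀ hcon (by positivity) (by norm_num)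
    have h3 : (N : ℝ) ^ 16 ≤ (Y : ℝ) ^ 16 * K := by exact_mod_cast hY.hY
    have h4 : (K : ℝ) ≤ (K : ℝ) ^ 16 := le_self_pow₀ hK1r (by norm_num)
    have h5 : (Y : ℝ) ^ 16 * K ≤ ((K : ℝ) * Y) ^ 16 := by
      rw [mul_pow, mul_comm]
      gcongr
    linarith
  rw [MQ, mem_Ioc] at hQ
  obtain ⟨hYQ, _⟩ := hQ
  have hYQr : (Y : ℝ) ≤ Q := by exact_mod_cast hYQ.le
  have hQ0 : (0 : ℝ) < Q := by linarith
  have hQ1 : 1 ≤ Q := by omega
  have hsum : ∑ k ∈ Icc 1 (N / Q), SK K (k * Q) * ((N : ℝ) - k * Q) =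
      ∑ k ∈ Icc 1 (2 * N / Q), SK K (k * Q) * max 0 ((N : ℝ) - (k * Q : ℕ)) := by
    have hsub : Icc 1 (N / Q) ⊆ Icc 1 (2 * N / Q) := by
      apply Icc_subset_Icc_right
      apply Nat.div_le_div_right
      omega
    rw [← Finset.sum_subset hsub]
    · refine Finset.sum_congr rfl fun k hk => ?_
      rw [mem_Icc] at hk
      have h2 : k * Q ≤ N := (Nat.le_div_iff_mul_le (by omega)).1 hk.2
      have h3 : ((k * Q : ℕ) : ℝ) ≤ N := by exact_mod_cast h2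
      rw [max_eq_right (by linarith)]
      push_cast
      ring
    · intro k hk hk2
      rw [mem_Icc] at hk hk2
      have h2 : N < k * Q := by
        by_contra h3
        push Not at h3
        exact hk2 ⟨hk.1, (Nat.le_div_iff_mul_le (by omega)).2 h3⟩
      have h3 : (N : ℝ) ≤ ((k * Q : ℕ) : ℝ) := by exact_mod_cast h2.le
      rw [max_eq_left (by linarith), mul_zero]
  have hterm : ∀ k ∈ Icc 1 (2 * N / Q), |cg N K ((k * Q : ℕ) : ℤ) -
      SK K (k * Q) * max 0 ((N : ℝ) - (k * Q : ℕ))| ≤ C1 * ((K : ℝ) ^ 5 + K * Mw N K) := by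
    intro k hk
    rw [mem_Icc] at hk
    have h2 : k * Q ≤ 2 * N := (Nat.le_div_iff_mul_le (by omega)).1 hk.2
    have h3 : 1 ≤ k * Q := Nat.mul_pos (by omega) (by omega)
    have h4 := h1 K hK1 N hR (k * Q) h3 h2
    unfold SK
    exact h4
  rw [h13a N K M Q hM hMw4 hQ1, hsum, ← mul_sub, ← Finset.sum_sub_distrib, abs_mul,
    abs_of_pos (by norm_num : (0 : ℝ) < 2)]
  have hcard : ((2 * N / Q : ℕ) : ℝ) ≤ 2 * K := by
    have h2 : ((2 * N / Q : ℕ) : ℝ) ≤ ((2 * N : ℕ) : ℝ) / Q := Nat.cast_div_le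
    refine h2.trans ?_
    rw [div_le_iff₀ hQ0]
    push_cast
    calc 2 * (N : ℝ) ≤ 2 * (K * Y) := by linarith
      _ ≤ 2 * (K * Q) := by gcongr
      _ = 2 * K * Q := by ring
  have hB : ∑ k ∈ Icc 1 (2 * N / Q), |cg N K ((k * Q : ℕ) : ℤ) -
      SK K (k * Q) * max 0 ((N : ℝ) - (k * Q : ℕ))| ≤ 2 * K * (C1 * ((K : ℝ) ^ 5 + K * Mw N K)) := by
    calc ∑ k ∈ Icc 1 (2 * N / Q), |cg N K ((k * Q : ℕ) : ℤ) -
        SK K (k * Q) * max 0 ((N : ℝ) - (k * Q : ℕ))|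
        ≤ ∑ _k ∈ Icc 1 (2 * N / Q), C1 * ((K : ℝ) ^ 5 + K * Mw N K) :=
          Finset.sum_le_sum hterm
      _ = ((2 * N / Q : ℕ) : ℝ) * (C1 * ((K : ℝ) ^ 5 + K * Mw N K)) := by
          rw [Finset.sum_const, Nat.card_Icc, Nat.add_sub_cancel, nsmul_eq_mul]
      _ ≤ 2 * K * (C1 * ((K : ℝ) ^ 5 + K * Mw N K)) := by gcongr
  have hK6 : (K : ℝ) ^ 6 ≤ N / K := by
    rw [le_div_iff₀ hK0]
    calc (K : ℝ) ^ 6 * K = (K : ℝ) ^ 7 := by ring
      _ ≤ (K : ℝ) ^ 400 := pow_le_pow_right₀ hK1r (by norm_num)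
      _ ≤ N := hNK
  have hKM : (K : ℝ) ^ 2 * Mw N K ≤ N / K := by
    calc (K : ℝ) ^ 2 * Mw N K ≤ (K : ℝ) ^ 2 * (N / (K : ℝ) ^ 7) := by gcongr
      _ = N / (K : ℝ) ^ 5 := by field_simp
      _ ≤ N / K := by
        apply div_le_div_of_nonneg_left hN0.le hK0
        exact le_self_pow₀ hK1r (by norm_num)
  calc 2 * |∑ k ∈ Icc 1 (2 * N / Q), (cg N K ((k * Q : ℕ) : ℤ) -
        SK K (k * Q) * max 0 ((N : ℝ) - (k * Q : ℕ)))|
      ≤ 2 * ∑ k ∈ Icc 1 (2 * N / Q), |cg N K ((k * Q : ℕ) : ℤ) -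
        SK K (k * Q) * max 0 ((N : ℝ) - (k * Q : ℕ))| := by
          gcongr
          exact Finset.abs_sum_le_sum_abs _ _
    _ ≤ 2 * (2 * K * (C1 * ((K : ℝ) ^ 5 + K * Mw N K))) := by gcongr
    _ = 4 * C1 * ((K : ℝ) ^ 6 + (K : ℝ) ^ 2 * Mw N K) := by ring
    _ ≤ 4 * C1 * (N / K + N / K) := by gcongr
    _ = 8 * C1 * N / K := by ring

end Pool.Agent.FGA
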